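import Pool.Agent.Helper20.EP.Spec1
import Pool.Agent.Helper20.EP.Spec2

/-!
Part CUP of swarm EP: the upper bound for most `s` in a class.
-/

set_option autoImplicit false
set_option linter.unusedVariables false

open Polynomial Filter Topology MeasureTheory

namespace Pool.Agent.Helper31.EP.CUP

open Pool.Agent.Helper20.EP

/-! ### partial summation -/

lemma abel (c : ℕ → ℝ) (K : ℝ)
    (hA : ∀ Y : ℝ, 1 ≤ Y → ∑ k ∈ Finset.Icc 0 ⌊Y⌋₊, c k ≤ Real.log Y + K)
    (hc : ∀ k, 0 ≤ c k) (M y : ℝ) (hM : 3 ≤ M) (hy : M ≤ y) :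
    ∑ k ∈ Finset.Ioc ⌊M⌋₊ ⌊y⌋₊, (Real.log k)⁻¹ * c k ≤ ll y - ll M + 1 + K / Real.log M := by
  have hlogpos : ∀ t : ℝ, M ≤ t → 0 < Real.log t := fun t ht => Real.log_pos (by linarith)
  have hpos : ∀ t : ℝ, M ≤ t → 0 < t := fun t ht => by linarith
  have hd : ∀ t : ℝ, M ≤ t → HasDerivAt (fun t : ℝ => (Real.log t)⁻¹)
      (-(t⁻¹) / (Real.log t) ^ 2) t := by
    intro t ht
    exact (Real.hasDerivAt_log (ne_of_gt (hpos t ht))).inv (ne_of_gt (hlogpos t ht))
  have hderiv : ∀ t : ℝ, M ≤ t → deriv (fun t : ℝ => (Real.log t)⁻¹) t =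
      -(t⁻¹) / (Real.log t) ^ 2 := fun t ht => (hd t ht).deriv
  have hcont : ContinuousOn (fun t : ℝ => -(t⁻¹) / (Real.log t) ^ 2) (Set.Icc M y) := by
    apply ContinuousOn.div
    · exact (ContinuousOn.inv₀ continuousOn_id (fun t ht => ne_of_gt (hpos t ht.1))).neg
    · exact (ContinuousOn.log continuousOn_id (fun t ht => ne_of_gt (hpos t ht.1))).pow 2
    · intro t ht
      exact pow_ne_zero 2 (ne_of_gt (hlogpos t ht.1))
  have hint : IntegrableOn (deriv (fun t : ℝ => (Real.log t)⁻¹)) (Set.Icc M y) := by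
    apply (hcont.integrableOn_compact isCompact_Icc).congr_fun _ measurableSet_Icc
    intro t ht
    exact (hderiv t ht.1).symm
  have key := sum_mul_eq_sub_sub_integral_mul c (f := fun t : ℝ => (Real.log t)⁻¹)
    (by linarith : (0 : ℝ) ≤ M) hy (fun t ht => (hd t ht.1).differentiableAt) hint
  rw [key]
  -- the integral
  have hG : ∀ t : ℝ, M ≤ t → HasDerivAt (fun t : ℝ => Real.log (Real.log t) - K * (Real.log t)⁻¹)
      (t⁻¹ / (Real.log t) ^ 2 * (Real.log t + K)) t := by
    intro t ht
    have h1 : HasDerivAt (fun t : ℝ => Real.log (Real.log t)) (t⁻¹ / Real.log t) t :=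
      (Real.hasDerivAt_log (ne_of_gt (hpos t ht))).log (ne_of_gt (hlogpos t ht))
    have h2 := h1.sub ((hd t ht).const_mul K)
    have e : t⁻¹ / (Real.log t) ^ 2 * (Real.log t + K) =
        t⁻¹ / Real.log t - K * (-(t⁻¹) / (Real.log t) ^ 2) := by
      have := ne_of_gt (hlogpos t ht)
      field_simp
      ring
    rw [e]; exact h2
  have hcont2 : ContinuousOn (fun t : ℝ => t⁻¹ / (Real.log t) ^ 2 * (Real.log t + K))
      (Set.Icc M y) := by
    apply ContinuousOn.mul
    · apply ContinuousOn.div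
      · exact ContinuousOn.inv₀ continuousOn_id (fun t ht => ne_of_gt (hpos t ht.1))
      · exact (ContinuousOn.log continuousOn_id (fun t ht => ne_of_gt (hpos t ht.1))).pow 2
      · intro t ht
        exact pow_ne_zero 2 (ne_of_gt (hlogpos t ht.1))
    · exact (ContinuousOn.log continuousOn_id (fun t ht => ne_of_gt (hpos t ht.1))).add
        continuousOn_const
  have hI2 : ∫ t in M..y, t⁻¹ / (Real.log t) ^ 2 * (Real.log t + K) =
      (Real.log (Real.log y) - K * (Real.log y)⁻¹) -
        (Real.log (Real.log M) - K * (Real.log M)⁻¹) := by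
    apply intervalIntegral.integral_eq_sub_of_hasDerivAt
    · intro t ht
      rw [Set.uIcc_of_le hy] at ht
      exact hG t ht.1
    · rw [intervalIntegrable_iff_integrableOn_Icc_of_le hy]
      exact hcont2.integrableOn_compact isCompact_Icc
  have hI1 : -∫ t in Set.Ioc M y, deriv (fun t : ℝ => (Real.log t)⁻¹) t *
      ∑ k ∈ Finset.Icc 0 ⌊t⌋₊, c k ≤
      ∫ t in M..y, t⁻¹ / (Real.log t) ^ 2 * (Real.log t + K) := by
    rw [intervalIntegral.integral_of_le hy, ← integral_neg]
    apply setIntegral_mono_on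
    · exact ((integrableOn_mul_sum_Icc c (by linarith) hint).mono_set
        Set.Ioc_subset_Icc_self).neg
    · exact (hcont2.integrableOn_compact isCompact_Icc).mono_set Set.Ioc_subset_Icc_self
    · exact measurableSet_Ioc
    · intro t ht
      rw [hderiv t ht.1.le]
      have h1 := hA t (by have := ht.1; linarith)
      have h2 : 0 ≤ t⁻¹ / (Real.log t) ^ 2 :=
        div_nonneg (inv_nonneg.mpr (hpos t ht.1.le).le) (sq_nonneg _)
      have h3 := mul_le_mul_of_nonneg_left h1 h2
      have e : -(-t⁻¹ / Real.log t ^ 2 * ∑ k ∈ Finset.Icc 0 ⌊t⌋₊, c k) =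
          t⁻¹ / (Real.log t) ^ 2 * ∑ k ∈ Finset.Icc 0 ⌊t⌋₊, c k := by ring
      rw [e]; exact h3
  rw [hI2] at hI1
  have hy1 := hA y (by linarith)
  have hly := hlogpos y hy
  have hlM := hlogpos M le_rfl
  have h4 : (Real.log y)⁻¹ * ∑ k ∈ Finset.Icc 0 ⌊y⌋₊, c k ≤ 1 + K * (Real.log y)⁻¹ := by
    have h5 := mul_le_mul_of_nonneg_left hy1 (inv_nonneg.mpr hly.le)
    have e : (Real.log y)⁻¹ * (Real.log y + K) = 1 + K * (Real.log y)⁻¹ := by
      field_simp
    rw [e] at h5; exact h5
  have h6 : 0 ≤ (Real.log M)⁻¹ * ∑ k ∈ Finset.Icc 0 ⌊M⌋₊, c k :=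
    mul_nonneg (inv_nonneg.mpr hlM.le) (Finset.sum_nonneg fun k _ => hc k)
  unfold ll
  have e : K / Real.log M = K * (Real.log M)⁻¹ := div_eq_mul_inv _ _
  rw [e]
  linarith

lemma partialS (a : ℕ → ℝ) (K : ℝ) (ha : ∀ k, 0 ≤ a k)
    (hA : ∀ Y : ℝ, 1 ≤ Y → ∑ p ∈ primesLE Y, a p * Real.log p / p ≤ Real.log Y + K)
    (M y : ℝ) (hM : 3 ≤ M) (hy : M ≤ y) :
    ∑ p ∈ (primesLE y).filter (fun p : ℕ => M < p), a p / p ≤
      ll y - ll M + 1 + K / Real.log M := by
  have hIcc : ∀ n : ℕ, Finset.Icc 0 n = Finset.range (n + 1) := by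
    intro n; ext x; simp [Nat.lt_succ_iff]
  have h := abel (fun k => if k.Prime then a k * Real.log k / k else 0) K (by
    intro Y hY
    rw [hIcc, ← Finset.sum_filter]
    exact hA Y hY) (by
    intro k
    split_ifs with hk
    · exact div_nonneg (mul_nonneg (ha k) (Real.log_natCast_nonneg k)) (Nat.cast_nonneg k)
    · exact le_rfl) M y hM hy
  refine le_trans (le_of_eq ?_) h
  have e : ∀ k : ℕ, (Real.log k)⁻¹ * (if k.Prime then a k * Real.log k / k else 0) =
      if k.Prime then a k / k else 0 := by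
    intro k
    split_ifs with hk
    · have : Real.log k ≠ 0 := ne_of_gt (Real.log_pos (by exact_mod_cast hk.one_lt))
      field_simp
    · simp
  simp only [e]
  rw [← Finset.sum_filter]
  apply Finset.sum_congr _ (fun _ _ => rfl)
  ext p
  unfold primesLE
  simp only [Finset.mem_filter, Finset.mem_range, Finset.mem_Ioc]
  rw [Nat.floor_lt (by linarith : (0 : ℝ) ≤ M), Nat.lt_succ_iff]
  tauto

/-! ### numbers of roots -/

lemma rho_le_self (g : ℤ[X]) (p : ℕ) : rho g p ≤ p := by
  unfold rho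
  calc _ ≤ (Finset.range p).card := Finset.card_filter_le _ _
    _ = p := Finset.card_range p

lemma rho_le_deg (g : ℤ[X]) (p : ℕ) (hp : p.Prime) (h : ¬ (p : ℤ) ∣ g.leadingCoeff) :
    rho g p ≤ g.natDegree := by
  have : Fact p.Prime := ⟨hp⟩
  unfold rho
  have hne : g.map (Int.castRingHom (ZMod p)) ≠ 0 := by
    intro h0
    apply h
    have h1 : (g.map (Int.castRingHom (ZMod p))).coeff g.natDegree = 0 := by rw [h0]; simp
    rw [coeff_map] at h1
    rw [← ZMod.intCast_zmod_eq_zero_iff_dvd _ p]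
    exact h1
  have h2 : ((Finset.range p).filter fun x : ℕ => (p : ℤ) ∣ g.eval (x : ℤ)).card ≤
      (g.map (Int.castRingHom (ZMod p))).roots.toFinset.card := by
    apply Finset.card_le_card_of_injOn (fun x : ℕ => (x : ZMod p))
    · intro x hx
      rw [Finset.mem_coe, Finset.mem_filter] at hx
      rw [Finset.mem_coe, Multiset.mem_toFinset, mem_roots hne, IsRoot.def]
      have h3 := (ZMod.intCast_zmod_eq_zero_iff_dvd (g.eval (x : ℤ)) p).mpr hx.2
      have h4 : (g.map (Int.castRingHom (ZMod p))).eval ((x : ℕ) : ZMod p) =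
          ((g.eval (x : ℤ) : ℤ) : ZMod p) := by
        have : ((x : ℕ) : ZMod p) = (Int.castRingHom (ZMod p)) (x : ℤ) := by simp
        rw [this, eval_map, eval₂_at_apply]
        simp
      rw [h4]; exact h3
    · intro x hx z hz hxz
      rw [Finset.mem_coe, Finset.mem_filter, Finset.mem_range] at hx hz
      have h5 : ((x : ℕ) : ZMod p) = ((z : ℕ) : ZMod p) := hxz
      rw [ZMod.natCast_eq_natCast_iff'] at h5
      rwa [Nat.mod_eq_of_lt hx.1, Nat.mod_eq_of_lt hz.1] at h5
  refine h2.trans ((Multiset.toFinset_card_le _).trans ((card_roots' _).trans ?_))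
  exact natDegree_map_le

lemma rho_X (p : ℕ) (hp : p.Prime) : rho (X : ℤ[X]) p = 1 := by
  unfold rho
  rw [Finset.card_eq_one]
  refine ⟨0, ?_⟩
  ext x
  rw [Finset.mem_filter, Finset.mem_range, Finset.mem_singleton, eval_X]
  constructor
  · rintro ⟨h1, h2⟩
    have : p ∣ x := by exact_mod_cast h2
    exact Nat.eq_zero_of_dvd_of_lt this h1
  · rintro rfl
    exact ⟨hp.pos, by simp⟩

lemma mem_P {y M : ℝ} {p : ℕ} (h : p ∈ (primesLE y).filter (fun p : ℕ => M < p)) :
    p.Prime ∧ M < p := by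
  unfold primesLE at h
  rw [Finset.mem_filter, Finset.mem_filter] at h
  exact ⟨h.1.2, h.2⟩

theorem main (irr : S_IRR) (osm : S_OSM) (mn : S_MON) : S_CUP := by
  classical
  intro d hd
  obtain ⟨cI, hcI0, hcI1, hI⟩ := irr d hd
  refine ⟨cI / 2, by linarith, by linarith, ?_⟩
  intro ρ c' ε hρ hc' hε
  obtain ⟨C₁, M₁, hI⟩ := hI ρ hρ
  obtain ⟨CO, hCO, hO⟩ := osm d
  obtain ⟨CX, hCX, hOX⟩ := osm 1
  set B : ℝ := (1 + 3 * CO) + d * (1 + 1 + CX) + 1 with hB
  have hev : ∀ᶠ M : ℝ in atTop, M₁ ≤ M ∧ 3 ≤ M ∧ C₁ ≤ M ^ (cI / 2) ∧ M ^ (-c') ≤ ε ∧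
      B ≤ ε * Real.sqrt (ll M) := by
    refine (eventually_ge_atTop M₁).and ((eventually_ge_atTop 3).and ?_)
    refine ((tendsto_rpow_atTop (by linarith : 0 < cI / 2)).eventually_ge_atTop C₁).and ?_
    refine ((tendsto_rpow_neg_atTop hc').eventually_le_const hε).and ?_
    have h1 : Tendsto (fun M : ℝ => ε * Real.sqrt (ll M)) atTop atTop := by
      apply Tendsto.const_mul_atTop hε
      exact Real.tendsto_sqrt_atTop.comp (Real.tendsto_log_atTop.comp Real.tendsto_log_atTop)
    exact h1.eventually_ge_atTop B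
  obtain ⟨M₂, hM₂⟩ := eventually_atTop.mp hev
  refine ⟨M₂, ?_⟩
  intro F M c₀ y ξ S m hLab hM hy hS hm hm1 hAC
  obtain ⟨hMM1, hM3, hMC, hMε, hMB⟩ := hM₂ M hM
  have hMpos : 0 < M := by linarith
  have hlM1 : 1 ≤ Real.log M := by
    rw [Real.le_log_iff_exp_le hMpos]
    have := Real.exp_one_lt_d9
    linarith
  -- the exceptional set
  set A : Finset ℤ := S.filter (fun s => ¬ Irreducible (mon F s)) with hA
  have hAS : A ⊆ S := Finset.filter_subset _ _
  have hAcard : (A.card : ℝ) ≤ M ^ (1 - cI / 2) := by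
    have h1 := hI F M c₀ ξ A hLab hMM1 (fun s hs => hS s (hAS hs))
      (fun s hs => (Finset.mem_filter.mp hs).2)
    refine h1.trans ?_
    have h2 : M ^ (1 - cI / 2) = M ^ (cI / 2) * M ^ (1 - cI) := by
      rw [← Real.rpow_add hMpos]; congr 1; ring
    rw [h2]
    exact mul_le_mul_of_nonneg_right hMC (Real.rpow_nonneg hMpos.le _)
  have hAm := hAC A hAS hAcard
  refine le_trans ?_ (hAm.trans hMε)
  unfold mass
  apply Finset.sum_le_sum_of_subset_of_nonneg
  · intro s hs
    rw [Finset.mem_filter] at hs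
    obtain ⟨hsS, hsP⟩ := hs
    rw [hA, Finset.mem_filter]
    refine ⟨hsS, fun hirr => ?_⟩
    exfalso
    revert hsP
    rw [imp_false, not_lt]
    -- the upper bound for an irreducible polynomial
    have hFd : F.natDegree = d := hLab.deg
    obtain ⟨hm1, hm2, hm3, hm4⟩ := mn F s (by rw [hFd]; exact hd)
    have hroots : RootsLE (mon F s) (M ^ 3) := by
      intro z hz
      have hsball : (s : ℂ) ∈ Metric.ball (c₀ : ℂ) (ρ * M) := by
        rw [Metric.mem_ball, dist_eq_norm]
        have h1 : ((s : ℂ) - (c₀ : ℂ)) = (((s : ℝ) - c₀ : ℝ) : ℂ) := by push_cast; rfl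
        rw [h1, Complex.norm_real, Real.norm_eq_abs]
        have h2 := hS s hsS
        have h3 : 0 < ρ * M := mul_pos hρ hMpos
        linarith
      have h1 : ((mon F s).map (Int.castRingHom ℂ)).eval z = 0 := by
        rw [eval_map, ← algebraMap_int_eq, ← aeval_def]
        exact hz
      rw [hm3, hLab.roots _ hsball, eval_prod, Finset.prod_eq_zero_iff] at h1
      obtain ⟨i, _, hi⟩ := h1
      rw [eval_sub, eval_X, eval_C, sub_eq_zero] at hi
      rw [hi]
      exact hLab.bd i _ hsball
    have hM8 : (2 : ℝ) ≤ M ^ 3 := by nlinarith [sq_nonneg M, mul_pos hMpos hMpos]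
    have hlog3 : Real.log (M ^ 3) = 3 * Real.log M := by
      rw [Real.log_pow]; norm_num
    have hU : RS (mon F s) M y ≤ ll y - ll M + 1 + 3 * CO := by
      have h1 := partialS (fun p => (rho (mon F s) p : ℝ)) (CO * Real.log (M ^ 3))
        (fun k => Nat.cast_nonneg _)
        (fun Y hY => hO (mon F s) hm1 hirr (by rw [hm2, hFd]) (M ^ 3) hM8 hroots Y hY) M y hM3 hy
      have h2 : CO * Real.log (M ^ 3) / Real.log M = 3 * CO := by
        rw [hlog3]
        have : Real.log M ≠ 0 := by linarith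
        field_simp
      rw [h2] at h1
      exact h1
    have hX : ∑ p ∈ (primesLE (M ^ 2)).filter (fun p : ℕ => M < p), (1 : ℝ) / p ≤
        1 + 1 + CX := by
      have hM2 : M ≤ M ^ 2 := by nlinarith
      have h0 : RootsLE (X : ℤ[X]) 2 := by
        intro z hz
        rw [aeval_X] at hz
        rw [hz]; simp
      have h1 := partialS (fun _ => (1 : ℝ)) (CX * Real.log 2) (fun k => zero_le_one) (by
        intro Y hY
        have h2 := hOX X monic_X irreducible_X natDegree_X 2 le_rfl h0 Y hY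
        refine le_trans (le_of_eq ?_) h2
        apply Finset.sum_congr rfl
        intro p hp
        unfold primesLE at hp
        rw [Finset.mem_filter] at hp
        rw [rho_X p hp.2]; simp) M (M ^ 2) hM3 hM2
      have h3 : ll (M ^ 2) = Real.log 2 + ll M := by
        unfold ll
        rw [Real.log_pow]
        push_cast
        rw [Real.log_mul (by norm_num) (by linarith)]
      have h4 : Real.log 2 ≤ 1 := by
        have := Real.log_two_lt_d9
        linarith
      have h5 : CX * Real.log 2 / Real.log M ≤ CX := by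
        rw [div_le_iff₀ (by linarith)]
        have h6 : 0 ≤ Real.log 2 := Real.log_nonneg (by norm_num)
        nlinarith
      rw [h3] at h1
      linarith [h1]
    set b : ℤ := F.leadingCoeff with hb
    have hF0 : F ≠ 0 := by
      intro h; rw [h, natDegree_zero] at hFd; omega
    have hb0 : b ≠ 0 := leadingCoeff_ne_zero.mpr hF0
    have hbM : |(b : ℝ)| ≤ M ^ 2 := hLab.lc
    -- the polynomial `F - s`
    have hdeg : (F - C s).natDegree = d := by
      rw [natDegree_sub_C]; exact hFd
    have hlc : (F - C s).leadingCoeff = b := by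
      rw [leadingCoeff, hdeg, coeff_sub, coeff_C, if_neg (by omega), sub_zero, hb, leadingCoeff,
        hFd]
    have hterm : ∀ p ∈ (primesLE y).filter (fun p : ℕ => M < p),
        (rho (F - C s) p : ℝ) / p ≤ (rho (mon F s) p : ℝ) / p +
          (if (p : ℝ) ≤ M ^ 2 then (d : ℝ) * (1 / p) else 0) +
          (if (p : ℤ) ∣ b then (1 : ℝ) else 0) := by
      intro p hp
      obtain ⟨hpp, hMp⟩ := mem_P hp
      have hp0 : (0 : ℝ) < p := by exact_mod_cast hpp.pos
      have n1 : (0 : ℝ) ≤ (rho (mon F s) p : ℝ) / p := div_nonneg (Nat.cast_nonneg _) hp0.le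
      have n2 : (0 : ℝ) ≤ (if (p : ℝ) ≤ M ^ 2 then (d : ℝ) * (1 / p) else 0) := by
        split_ifs
        · positivity
        · exact le_rfl
      have n3 : (0 : ℝ) ≤ (if (p : ℤ) ∣ b then (1 : ℝ) else 0) := by
        split_ifs
        · exact zero_le_one
        · exact le_rfl
      by_cases hpb : |b| < (p : ℤ)
      · rw [hm4 p hpp hpb]
        linarith
      · push Not at hpb
        have hpb' : (p : ℝ) ≤ |(b : ℝ)| := by exact_mod_cast hpb
        have hpM : (p : ℝ) ≤ M ^ 2 := hpb'.trans hbM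
        by_cases hdv : (p : ℤ) ∣ b
        · have h1 : (rho (F - C s) p : ℝ) / p ≤ 1 := by
            rw [div_le_one hp0]
            exact_mod_cast rho_le_self _ _
          rw [if_pos hdv]
          linarith
        · have h1 : rho (F - C s) p ≤ d := by
            have := rho_le_deg (F - C s) p hpp (by rw [hlc]; exact hdv)
            rwa [hdeg] at this
          have h2 : (rho (F - C s) p : ℝ) / p ≤ (d : ℝ) * (1 / p) := by
            rw [mul_one_div]
            exact div_le_div_of_nonneg_right (by exact_mod_cast h1) hp0.le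
          rw [if_pos hpM]
          linarith
    have hsum : RS (F - C s) M y ≤ RS (mon F s) M y + (d : ℝ) * (1 + 1 + CX) + 1 := by
      unfold RS
      refine (Finset.sum_le_sum hterm).trans ?_
      rw [Finset.sum_add_distrib, Finset.sum_add_distrib]
      have s2 : ∑ p ∈ (primesLE y).filter (fun p : ℕ => M < p),
          (if (p : ℝ) ≤ M ^ 2 then (d : ℝ) * (1 / p) else 0) ≤ (d : ℝ) * (1 + 1 + CX) := by
        rw [← Finset.sum_filter]
        have h1 : ∑ p ∈ ((primesLE y).filter (fun p : ℕ => M < p)).filter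
            (fun p : ℕ => (p : ℝ) ≤ M ^ 2), (d : ℝ) * (1 / p) ≤
            ∑ p ∈ (primesLE (M ^ 2)).filter (fun p : ℕ => M < p), (d : ℝ) * (1 / p) := by
          apply Finset.sum_le_sum_of_subset_of_nonneg
          · intro p hp
            unfold primesLE at hp ⊢
            simp only [Finset.mem_filter, Finset.mem_range] at hp ⊢
            obtain ⟨⟨⟨h1, h2⟩, h3⟩, h4⟩ := hp
            exact ⟨⟨Nat.lt_succ_of_le (Nat.le_floor h4), h2⟩, h3⟩
          · intro p _ _
            positivity
        refine h1.trans ?_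
        rw [← Finset.mul_sum]
        exact mul_le_mul_of_nonneg_left hX (Nat.cast_nonneg _)
      have s3 : ∑ p ∈ (primesLE y).filter (fun p : ℕ => M < p),
          (if (p : ℤ) ∣ b then (1 : ℝ) else 0) ≤ 1 := by
        rw [← Finset.sum_filter, Finset.sum_const, nsmul_eq_mul, mul_one]
        have : (((primesLE y).filter (fun p : ℕ => M < p)).filter
            (fun p : ℕ => (p : ℤ) ∣ b)).card ≤ 1 := by
          rw [Finset.card_le_one]
          intro p hp q hq
          rw [Finset.mem_filter] at hp hq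
          obtain ⟨hpp, hMp⟩ := mem_P hp.1
          obtain ⟨hqq, hMq⟩ := mem_P hq.1
          by_contra hne
          have hcop : IsCoprime (p : ℤ) (q : ℤ) := by
            rw [Nat.isCoprime_iff_coprime]
            exact (Nat.coprime_primes hpp hqq).mpr hne
          have hdiv : (p : ℤ) * q ∣ b := hcop.mul_dvd hp.2 hq.2
          have h1 : |(p : ℤ) * q| ≤ |b| := Int.le_of_dvd (abs_pos.mpr hb0)
            ((abs_dvd_abs _ _).mpr hdiv)
          have h2 : |((p : ℝ) * q)| ≤ |(b : ℝ)| := by exact_mod_cast h1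
          rw [abs_of_nonneg (by positivity)] at h2
          have h3 : M ^ 2 < (p : ℝ) * q := by nlinarith
          linarith
        exact_mod_cast this
      linarith
    have hll : ll M ≤ ll y := by
      unfold ll
      apply Real.log_le_log (by linarith)
      exact Real.log_le_log hMpos hy
    have hsq : Real.sqrt (ll M) ≤ Real.sqrt (ll y) := Real.sqrt_le_sqrt hll
    have h7 : ε * Real.sqrt (ll M) ≤ ε * Real.sqrt (ll y) := mul_le_mul_of_nonneg_left hsq hε.le
    linarith
  · intro s hs _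
    exact hm s (hAS hs)

end Pool.Agent.Helper31.EP.CUP
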