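import Pool.Agent.Helper20.EP.Spec2

/-!
Part FIELD of swarm EP: a Galois number field containing all the roots.
-/

set_option autoImplicit false
set_option linter.unusedVariables false

open Polynomial

namespace Pool.Agent.Helper31.EP.FIELD

open Pool.Agent.Helper20.EP

/-- the action on the labels -/
lemma exists_hom {d : ℕ} {K : Type} [Field K] [NumberField K] (x : Fin d → K)
    (hx : Function.Injective x) (h : ∀ (γ : K ≃ₐ[ℚ] K) i, ∃ j, γ (x i) = x j) :
    ∃ g : (K ≃ₐ[ℚ] K) →* Equiv.Perm (Fin d), ∀ (γ : K ≃ₐ[ℚ] K) i, γ (x i) = x (g γ i) := by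
  choose f hf using h
  let F : (K ≃ₐ[ℚ] K) →* Function.End (Fin d) :=
    { toFun := f
      map_one' := by
        funext i
        apply hx
        rw [← hf]
        rfl
      map_mul' := by
        intro a b
        funext i
        apply hx
        rw [← hf]
        show (a * b) (x i) = x (f a (f b i))
        rw [← hf, ← hf]
        rfl }
  refine ⟨MonoidHom.toHomPerm F, ?_⟩
  intro γ i
  exact hf γ i

theorem main (mn : S_MON) : S_FIELD := by
  classical
  intro d F M ρ c₀ ξ S hd hLab hS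
  have hFd : F.natDegree = d := hLab.deg
  have hF1 : 1 ≤ F.natDegree := by rw [hFd]; exact hd
  have hball : ∀ s ∈ S, (s : ℂ) ∈ Metric.ball (c₀ : ℂ) (ρ * M) := by
    intro s hs
    rw [Metric.mem_ball, dist_eq_norm]
    have h1 : ((s : ℂ) - (c₀ : ℂ)) = (((s : ℝ) - c₀ : ℝ) : ℂ) := by push_cast; rfl
    rw [h1, Complex.norm_real, Real.norm_eq_abs]
    exact hS s hs
  have hmap : ∀ s ∈ S, (mon F s).map (Int.castRingHom ℂ) = ∏ i, (X - C (ξ i (s : ℂ))) := by
    intro s hs
    rw [(mn F s hF1).2.2.1, hLab.roots _ (hball s hs)]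
  set P : ℚ[X] := ∏ s ∈ S, (mon F s).map (Int.castRingHom ℚ) with hP
  have hPm : P.Monic := monic_prod_of_monic _ _ (fun s _ => (mn F s hF1).1.map _)
  have hPdvd : ∀ s ∈ S, (mon F s).map (Int.castRingHom ℚ) ∣ P := fun s hs =>
    Finset.dvd_prod_of_mem _ hs
  -- roots
  have hroot : ∀ s ∈ S, ∀ z : ℂ, aeval z (mon F s) = 0 ↔ ∃ i, z = ξ i (s : ℂ) := by
    intro s hs z
    have e : aeval z (mon F s) = ((mon F s).map (Int.castRingHom ℂ)).eval z := by
      rw [eval_map, ← algebraMap_int_eq, ← aeval_def]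
    rw [e, hmap s hs, eval_prod, Finset.prod_eq_zero_iff]
    constructor
    · rintro ⟨i, _, hi⟩
      rw [eval_sub, eval_X, eval_C, sub_eq_zero] at hi
      exact ⟨i, hi⟩
    · rintro ⟨i, hi⟩
      exact ⟨i, Finset.mem_univ _, by rw [eval_sub, eval_X, eval_C, hi, sub_self]⟩
  let K : IntermediateField ℚ ℂ := IntermediateField.adjoin ℚ (P.rootSet ℂ)
  have hmem : ∀ s ∈ S, ∀ i, ξ i (s : ℂ) ∈ K := by
    intro s hs i
    apply IntermediateField.subset_adjoin
    rw [mem_rootSet]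
    refine ⟨hPm.ne_zero, ?_⟩
    have h1 : aeval (ξ i (s : ℂ)) ((mon F s).map (Int.castRingHom ℚ)) = 0 := by
      rw [← algebraMap_int_eq, aeval_map_algebraMap]
      exact (hroot s hs _).mpr ⟨i, rfl⟩
    obtain ⟨Q, hQ⟩ := hPdvd s hs
    rw [hQ, map_mul, h1, zero_mul]
  have hsp : P.IsSplittingField ℚ K :=
    IntermediateField.adjoin_rootSet_isSplittingField (IsAlgClosed.splits _)
  have hfd : FiniteDimensional ℚ K := Polynomial.IsSplittingField.finiteDimensional K P
  have hnf : NumberField K := { to_charZero := inferInstance, to_finiteDimensional := hfd }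
  have hnorm : Normal ℚ K := Normal.of_isSplittingField P
  have hgal : IsGalois ℚ K := { to_isSeparable := inferInstance, to_normal := hnorm }
  let x : ℤ → Fin d → K := fun s i =>
    if h : ξ i (s : ℂ) ∈ K then ⟨ξ i (s : ℂ), h⟩ else 0
  have hx : ∀ s ∈ S, ∀ i, ((x s i : K) : ℂ) = ξ i (s : ℂ) := by
    intro s hs i
    simp only [x]
    rw [dif_pos (hmem s hs i)]
  have hxinj : ∀ s ∈ S, Function.Injective (x s) := by
    intro s hs i j hij
    apply hLab.inj _ (hball s hs)
    show ξ i (s : ℂ) = ξ j (s : ℂ)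
    rw [← hx s hs i, ← hx s hs j, hij]
  have hperm : ∀ s ∈ S, ∀ (γ : K ≃ₐ[ℚ] K) i, ∃ j, γ (x s i) = x s j := by
    intro s hs γ i
    have h0 : aeval (x s i) ((mon F s).map (Int.castRingHom ℚ)) = 0 := by
      have h1 : aeval ((x s i : K) : ℂ) ((mon F s).map (Int.castRingHom ℚ)) = 0 := by
        rw [hx s hs i, ← algebraMap_int_eq, aeval_map_algebraMap]
        exact (hroot s hs _).mpr ⟨i, rfl⟩
      have h2 : aeval ((x s i : K) : ℂ) ((mon F s).map (Int.castRingHom ℚ)) =
          ((aeval (x s i) ((mon F s).map (Int.castRingHom ℚ)) : K) : ℂ) :=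
        aeval_algebraMap_apply ℂ (x s i) _
      rw [h2] at h1
      exact_mod_cast h1
    have h3 : aeval (γ (x s i)) ((mon F s).map (Int.castRingHom ℚ)) = 0 := by
      rw [aeval_algHom_apply γ, h0, map_zero]
    have h4 : aeval ((γ (x s i) : K) : ℂ) ((mon F s).map (Int.castRingHom ℚ)) = 0 := by
      have h2 : aeval ((γ (x s i) : K) : ℂ) ((mon F s).map (Int.castRingHom ℚ)) =
          ((aeval (γ (x s i)) ((mon F s).map (Int.castRingHom ℚ)) : K) : ℂ) :=
        aeval_algebraMap_apply ℂ (γ (x s i)) _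
      rw [h2, h3]; rfl
    rw [← algebraMap_int_eq, aeval_map_algebraMap] at h4
    obtain ⟨j, hj⟩ := (hroot s hs _).mp h4
    refine ⟨j, ?_⟩
    apply Subtype.ext
    rw [hj, hx s hs j]
  have hg : ∀ s : ℤ, ∃ g : (K ≃ₐ[ℚ] K) →* Equiv.Perm (Fin d), s ∈ S →
      ∀ (γ : K ≃ₐ[ℚ] K) i, γ (x s i) = x s (g γ i) := by
    intro s
    by_cases hs : s ∈ S
    · obtain ⟨g, hg⟩ := exists_hom (x s) (hxinj s hs) (hperm s hs)
      exact ⟨g, fun _ => hg⟩
    · exact ⟨1, fun h => absurd h hs⟩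
  choose g hg using hg
  refine ⟨K, inferInstance, hnf, hgal, K.val.toRingHom, x, g, ?_⟩
  refine ⟨fun s hs i => hx s hs i, fun s hs γ i => hg s hs γ i⟩

end Pool.Agent.Helper31.EP.FIELD
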